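import Pool.Agent.H44.GN.PthD
import Pool.Agent.H49.FRF.All
import Pool.Agent.H24.GN.L12
import Pool.Agent.H46.MIC.Ev

/-!
# The F-step of the path lemma

`FR` of `Pool.GPath.Dat` from `Pool.FRF.fr`. The own sheet `B` lives over a unit box, the box of
the data `d` is the cell of side `2 ^ (-a)` of the position `s`. If the rows of the target are not
full given the position and the closed data `Z` on any large event, the position is full given the
own sheet, and the dependence of the position and the own sheet is small, then the shape over the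
cell to `e + X` digits is a function of the static box to `e` digits.
-/

set_option autoImplicit false

namespace Pool.FSTP

open Finset Real MvPolynomial
open Pool.Agent.H49.Ent Pool.Agent.H32.Dense Pool.STK Pool.KAF Pool.SLO Pool.SLP
open Pool.LIVE20 (mi mi_nonneg)
open Pool.L12 (mi_symm mi_mono mi_pr mi_cond_le mi_cond_le')
open Pool.BFL (Pb)

section pure

variable {Ω 𝔹 𝕊 𝕋 𝕍 : Type} [Fintype Ω] {q : Ω → ℝ}

/-- Parts of the variables put into the condition. -/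
theorem mi_step (hq : ∀ ω, 0 ≤ q ω) {B : Ω → 𝔹} {s : Ω → 𝕊} {Z : Ω → 𝕋} {v : Ω → 𝕍} {α β : Ω → ℤ}
    (hv : Det q s v) (hα : Det q (fun ω => (B ω, v ω)) α) (hβ : Det q α β) :
    mi q α s (fun ω => (β ω, (v ω, Z ω))) ≤ mi q B s Z := by
  have h1 := mi_cond_le' hq α β s (fun ω => (v ω, Z ω))
  have h2 : mi q (fun ω => (α ω, β ω)) s (fun ω => (v ω, Z ω)) ≤
      mi q B s (fun ω => (v ω, Z ω)) := by
    refine mi_mono hq ?_ (fun _ _ _ _ h => (Prod.ext_iff.mp h).1) (fun _ _ _ _ h => h)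
      (fun _ _ _ _ h => h)
    intro ω ω' p1 p2 h
    simp only [Prod.mk.injEq] at h
    have e := hα ω ω' p1 p2 (Prod.ext h.1 h.2.1)
    exact Prod.ext e (hβ ω ω' p1 p2 e)
  have h3 := mi_cond_le hq B v s Z
  have h4 : mi q B (fun ω => (v ω, s ω)) Z ≤ mi q B s Z := by
    refine mi_mono hq (fun _ _ _ _ h => (Prod.ext_iff.mp h).1) ?_ (fun _ _ _ _ h => h)
      (fun _ _ _ _ h => h)
    intro ω ω' p1 p2 h
    simp only [Prod.mk.injEq] at h
    exact Prod.ext (hv ω ω' p1 p2 h.1) h.1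
  linarith

/-- **Rows.** `n', n` are the rows of the target at two precisions, `a', a` those of the own
height, `α` the own height at the rounded position. -/
theorem rows_step (hq : IsLaw q) {B : Ω → 𝔹} {s : Ω → 𝕊} {Z : Ω → 𝕋} {v : Ω → 𝕍}
    {α a' a n' n : Ω → ℤ} {h : ℕ} {M : ℝ} (hM : 0 ≤ M)
    (hv : Det q s v) (hα : Det q (fun ω => (B ω, v ω)) α)
    (ha' : ∀ ω, 0 < q ω → |((a' ω - α ω : ℤ) : ℝ)| ≤ M)
    (ha : ∀ ω, 0 < q ω → |((a ω - α ω / 2 ^ h : ℤ) : ℝ)| ≤ M)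
    (hn' : ∀ ω, 0 < q ω → |((n' ω - α ω : ℤ) : ℝ)| ≤ M)
    (hn : ∀ ω, 0 < q ω → |((n ω - α ω / 2 ^ h : ℤ) : ℝ)| ≤ M)
    {μ ψ : ℝ} (hμ : mi q B s Z ≤ μ) (hψ : CH q n' (fun ω => (n ω, (s ω, Z ω))) ≤ ψ) :
    CH q a' (fun ω => (v ω, (a ω, Z ω))) ≤ μ + ψ + 4 * Real.log (4 * M + 1) := by
  have hq0 := hq.nonneg
  have nr : ∀ {T : Type} (A A' : Ω → ℤ) (W : Ω → T),
      (∀ ω, 0 < q ω → |((A ω - A' ω : ℤ) : ℝ)| ≤ M) →
      CH q A (fun ω => (A' ω, W ω)) ≤ Real.log (4 * M + 1) := by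
    intro T A A' W hA
    refine Pool.OVN.CH_near hq A A' W (fun _ => 0) M hM fun ω hω => ?_
    rw [sub_zero]
    exact hA ω hω
  have nr' : ∀ {T : Type} (A A' : Ω → ℤ) (W : Ω → T),
      (∀ ω, 0 < q ω → |((A ω - A' ω : ℤ) : ℝ)| ≤ M) →
      CH q A' (fun ω => (A ω, W ω)) ≤ Real.log (4 * M + 1) := by
    intro T A A' W hA
    refine Pool.OVN.CH_near' hq A A' W (fun _ => 0) M hM fun ω hω => ?_
    rw [sub_zero]
    exact hA ω hω
  -- from `a'` to `α`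
  have t1 := CH_le_add hq0 a' α (fun ω => (v ω, (a ω, Z ω)))
  have t2 := nr a' α (fun ω => (v ω, (a ω, Z ω))) ha'
  -- from `a` to `β`
  have t3 := CH_le_add hq0 α (fun ω => α ω / 2 ^ h) (fun ω => (v ω, (a ω, Z ω)))
  have t4 : CH q (fun ω => α ω / 2 ^ h) (fun ω => (v ω, (a ω, Z ω))) ≤ Real.log (4 * M + 1) := by
    refine (CH_mono_cond hq0 ?_).trans (nr' a (fun ω => α ω / 2 ^ h) (fun ω => (v ω, Z ω)) ha)
    intro ω ω' _ _ e
    simp only [Prod.mk.injEq] at e ⊢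
    tauto
  have t5 : CH q α (fun ω => (α ω / 2 ^ h, (v ω, (a ω, Z ω)))) ≤
      CH q α (fun ω => (α ω / 2 ^ h, (v ω, Z ω))) := by
    refine CH_mono_cond hq0 ?_
    intro ω ω' _ _ e
    simp only [Prod.mk.injEq] at e ⊢
    tauto
  -- the position
  have t6 : CH q α (fun ω => (α ω / 2 ^ h, (v ω, Z ω))) =
      CH q α (fun ω => (s ω, (α ω / 2 ^ h, (v ω, Z ω)))) +
        mi q α s (fun ω => (α ω / 2 ^ h, (v ω, Z ω))) := by
    unfold mi
    ring
  have t7 := mi_step hq0 (B := B) (s := s) (Z := Z) (v := v) (α := α)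
    (β := fun ω => α ω / 2 ^ h) hv hα (fun ω ω' _ _ e => by simp only [e])
  -- the rows of the target
  have t8 : CH q α (fun ω => (s ω, (α ω / 2 ^ h, (v ω, Z ω)))) ≤
      CH q α (fun ω => (α ω / 2 ^ h, (s ω, Z ω))) := by
    refine CH_mono_cond hq0 ?_
    intro ω ω' _ _ e
    simp only [Prod.mk.injEq] at e ⊢
    tauto
  have t9 := CH_le_add hq0 α n' (fun ω => (α ω / 2 ^ h, (s ω, Z ω)))
  have t10 := nr' n' α (fun ω => (α ω / 2 ^ h, (s ω, Z ω))) hn'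
  have t11 := CH_le_add hq0 n' n (fun ω => (α ω / 2 ^ h, (s ω, Z ω)))
  have t12 := nr n (fun ω => α ω / 2 ^ h) (fun ω => (s ω, Z ω)) hn
  have t13 : CH q n' (fun ω => (n ω, (α ω / 2 ^ h, (s ω, Z ω)))) ≤
      CH q n' (fun ω => (n ω, (s ω, Z ω))) := by
    refine CH_mono_cond hq0 ?_
    intro ω ω' _ _ e
    simp only [Prod.mk.injEq] at e ⊢
    tauto
  linarith

end pure

section floors

/-- The integer quotients of near integers. -/
theorem ediv_near {u : ℤ} {y M : ℝ} (h : ℕ) (hu : |(u : ℝ) - 2 ^ h * y| ≤ M) :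
    |y - ((u / 2 ^ h : ℤ) : ℝ)| ≤ M + 1 := by
  have hp : (0 : ℝ) < 2 ^ h := by positivity
  have hp1 : (1 : ℝ) ≤ 2 ^ h := one_le_pow₀ (by norm_num)
  have e1 := Int.mul_ediv_add_emod u (2 ^ h)
  have e2 := Int.emod_nonneg u (b := 2 ^ h) (by positivity)
  have e3 := Int.emod_lt_of_pos u (b := 2 ^ h) (by positivity)
  have e1' : (2 : ℝ) ^ h * ((u / 2 ^ h : ℤ) : ℝ) + ((u % 2 ^ h : ℤ) : ℝ) = u := by
    exact_mod_cast e1
  have e2' : (0 : ℝ) ≤ ((u % 2 ^ h : ℤ) : ℝ) := by exact_mod_cast e2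
  have e3' : ((u % 2 ^ h : ℤ) : ℝ) ≤ 2 ^ h := by exact_mod_cast e3.le
  have hM : 0 ≤ M := (abs_nonneg _).trans hu
  rw [abs_le] at hu
  have g1 : 2 ^ h * (y - ((u / 2 ^ h : ℤ) : ℝ)) ≤ 2 ^ h * (M + 1) := by
    nlinarith [hu.1, hu.2]
  have g2 : 2 ^ h * (-(M + 1)) ≤ 2 ^ h * (y - ((u / 2 ^ h : ℤ) : ℝ)) := by
    nlinarith [hu.1, hu.2]
  rw [abs_le]
  exact ⟨le_of_mul_le_mul_left g2 hp, le_of_mul_le_mul_left g1 hp⟩

variable {k : ℕ}

/-- The height over the rounded position. -/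
noncomputable def hr (r : ℕ) (s : Fin k → ℝ) (B : MvPolynomial (Fin k) ℝ) : ℤ :=
  ⌊(2 : ℝ) ^ r * eval (fun j => (fl r s j : ℝ) / 2 ^ r) B⌋

theorem fl_near (r : ℕ) (s : Fin k → ℝ) (j : Fin k) : |(fl r s j : ℝ) / 2 ^ r - s j| ≤ 1 / 2 ^ r := by
  have hp : (0 : ℝ) < 2 ^ r := by positivity
  have h1 := Int.floor_le ((2 : ℝ) ^ r * s j)
  have h2 := Int.lt_floor_add_one ((2 : ℝ) ^ r * s j)
  have e : (fl r s j : ℝ) / 2 ^ r - s j = ((fl r s j : ℝ) - 2 ^ r * s j) / 2 ^ r := by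
    field_simp
  rw [e, abs_div, abs_of_pos hp]
  refine div_le_div_of_nonneg_right ?_ hp.le
  change |((⌊(2 : ℝ) ^ r * s j⌋ : ℤ) : ℝ) - 2 ^ r * s j| ≤ 1
  rw [abs_le]
  constructor <;> linarith

theorem hr_near {r : ℕ} {s : Fin k → ℝ} {B : MvPolynomial (Fin k) ℝ} {D : ℝ} (hD : 0 ≤ D)
    (hg : ∀ b : Fin k → ℝ, (∀ j, |b j - s j| ≤ 1) → ∀ j, |eval b (pderiv j B)| ≤ D) :
    |(hr r s B : ℝ) - 2 ^ r * eval s B| ≤ k * D + 1 := by
  have hp : (0 : ℝ) < 2 ^ r := by positivity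
  have hp1 : (1 : ℝ) ≤ 2 ^ r := one_le_pow₀ (by norm_num)
  have h1 := Pool.OVN.mean_value B (fun j => (fl r s j : ℝ) / 2 ^ r) s D (by
    intro t h0 h1 j
    refine hg _ (fun i => ?_) j
    have h2 := fl_near r s i
    have h3 : (1 : ℝ) / 2 ^ r ≤ 1 := (div_le_one hp).2 hp1
    have e : (fl r s i : ℝ) / 2 ^ r + t * (s i - (fl r s i : ℝ) / 2 ^ r) - s i =
        (1 - t) * ((fl r s i : ℝ) / 2 ^ r - s i) := by ring
    rw [e, abs_mul, abs_of_nonneg (by linarith : (0 : ℝ) ≤ 1 - t)]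
    calc (1 - t) * |(fl r s i : ℝ) / 2 ^ r - s i| ≤ 1 * 1 :=
          mul_le_mul (by linarith) (h2.trans h3) (abs_nonneg _) zero_le_one
      _ = 1 := one_mul _)
  have h2 : ∑ j, |s j - (fl r s j : ℝ) / 2 ^ r| ≤ k * (1 / 2 ^ r) := by
    refine (Finset.sum_le_sum fun j _ => ?_).trans (le_of_eq ?_) (b := ∑ _j : Fin k, (1 : ℝ) / 2 ^ r)
    · rw [abs_sub_comm]
      exact fl_near r s j
    · rw [Finset.sum_const, Finset.card_univ, Fintype.card_fin, nsmul_eq_mul]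
  have h3 : |eval s B - eval (fun j => (fl r s j : ℝ) / 2 ^ r) B| ≤ D * (k * (1 / 2 ^ r)) :=
    h1.trans (mul_le_mul_of_nonneg_left h2 hD)
  have h4 : |(2 : ℝ) ^ r * eval (fun j => (fl r s j : ℝ) / 2 ^ r) B - 2 ^ r * eval s B| ≤ k * D := by
    rw [← mul_sub, abs_mul, abs_of_pos hp, abs_sub_comm]
    calc (2 : ℝ) ^ r * |eval s B - eval (fun j => (fl r s j : ℝ) / 2 ^ r) B| ≤
          2 ^ r * (D * (k * (1 / 2 ^ r))) := mul_le_mul_of_nonneg_left h3 hp.le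
      _ = k * D := by field_simp
  unfold hr
  have h5 := Int.floor_le ((2 : ℝ) ^ r * eval (fun j => (fl r s j : ℝ) / 2 ^ r) B)
  have h6 := Int.lt_floor_add_one ((2 : ℝ) ^ r * eval (fun j => (fl r s j : ℝ) / 2 ^ r) B)
  rw [abs_le] at h4 ⊢
  constructor <;> linarith [h4.1, h4.2]

end floors

/-! ### The data -/

/-- The data of the large box. -/
structure FDat (k : ℕ) (Om : Type) where
  /-- the values of the closed data -/
  Ze : Type
  /-- the closed data of the large box, with the time -/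
  Z : Om → Ze
  /-- the position in the unit box -/
  s : Om → Fin k → ℝ
  /-- the own sheet over the unit box, at the exact time -/
  B : Om → MvPolynomial (Fin k) ℝ
  /-- the rows of the height of the sample -/
  N : ℕ → Om → ℤ

namespace FDat

variable {k : ℕ} {Om : Type} [Fintype Om] (f : FDat k Om) (p : Om → ℝ)

/-- The basic assumptions: degree at most `K`, the gradient of the own sheet is at most `D`, the
sample is on the own sheet up to `C₁` units of each precision. -/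
structure OK (K e : ℕ) (C₁ D : ℝ) : Prop where
  deg : ∀ ω, (f.B ω).totalDegree ≤ K
  hs : ∀ ω, 0 < p ω → ∀ j, 0 ≤ f.s ω j ∧ f.s ω j < 1
  grad : ∀ ω, 0 < p ω → ∀ b : Fin k → ℝ, (∀ j, |b j - f.s ω j| ≤ 1) →
    ∀ j, |eval b (pderiv j (f.B ω))| ≤ D
  near : ∀ ω, 0 < p ω → ∀ r ≤ e, |(f.N r ω : ℝ) - 2 ^ r * eval (f.s ω) (f.B ω)| ≤ C₁

/-- The position is full given the own sheet and the closed data, to `e` digits. -/
def Full (e : ℕ) (δ : ℝ) : Prop :=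
  k * (e * Real.log 2) - δ ≤ CH p (fun ω => fl e (f.s ω)) (fun ω => (f.B ω, f.Z ω))

/-- The dependence of the own sheet and of the (exact) position given the closed data. -/
def Ind (δ : ℝ) : Prop := mi p f.B f.s f.Z ≤ δ

/-- The blocks of rows of the height in `(e - (2 K + 1) X, e]` are not full on any large event,
given the (exact) position and the closed data. -/
def Row (K e X : ℕ) (c κ π₀ : ℝ) : Prop :=
  ∀ R h : ℕ, κ * X ≤ h → e ≤ R + (2 * K + 1) * X → R + h ≤ e →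
    ∀ E : Set Om, π₀ ≤ Pr p E →
      CH (Pool.Agent.H49.Ent.cond p (fun ω => ω ∈ E) True) (f.N (R + h))
        (fun ω => (f.N R ω, (f.s ω, f.Z ω))) ≤ (1 - c) * (h * Real.log 2)

end FDat

/-! ### The output -/

section out

variable {k : ℕ}

theorem hz_two {Q : ℕ} {M x y x' y' : ℝ} (h : |x - y| ≤ M / 2 ^ Q) (h' : |x' - y'| ≤ M / 2 ^ Q)
    (e : ⌊(2 : ℝ) ^ Q * y⌋ = ⌊(2 : ℝ) ^ Q * y'⌋) :
    |((⌊(2 : ℝ) ^ Q * x⌋ - ⌊(2 : ℝ) ^ Q * x'⌋ : ℤ) : ℝ)| ≤ 2 * M + 2 := by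
  have hp : (0 : ℝ) < 2 ^ Q := by positivity
  have h2 := Pool.Agent.H1.OVN.near_floor e
  have g1 : |(2 : ℝ) ^ Q * x - 2 ^ Q * y| ≤ M := by
    rw [← mul_sub, abs_mul, abs_of_pos hp]
    calc (2 : ℝ) ^ Q * |x - y| ≤ 2 ^ Q * (M / 2 ^ Q) := mul_le_mul_of_nonneg_left h hp.le
      _ = M := by field_simp
  have g2 : |(2 : ℝ) ^ Q * x' - 2 ^ Q * y'| ≤ M := by
    rw [← mul_sub, abs_mul, abs_of_pos hp]
    calc (2 : ℝ) ^ Q * |x' - y'| ≤ 2 ^ Q * (M / 2 ^ Q) := mul_le_mul_of_nonneg_left h' hp.le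
      _ = M := by field_simp
  have g3 : |(2 : ℝ) ^ Q * x - 2 ^ Q * x'| ≤ 2 * M + 1 := by
    rw [abs_le] at g1 g2 h2 ⊢
    constructor <;> linarith [g1.1, g1.2, g2.1, g2.2, h2.1, h2.2]
  have g4 := Pool.Agent.H1.OVN.floor_near g3
  push_cast
  refine g4.trans (le_of_eq ?_)
  ring

theorem fixt_sect (i₁ : Fin (k + 1)) (τ : ℝ) (G : MvPolynomial (Fin (k + 1)) ℝ) :
    fixt i₁ τ G = rename i₁.succAbove (sect i₁ τ G) := by
  refine MvPolynomial.funext fun u => ?_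
  rw [eval_fixt, eval_rename, eval_sect]
  have e : Function.update u i₁ τ =
      Fin.insertNth (α := fun _ => ℝ) i₁ τ (u ∘ i₁.succAbove) := by
    funext j
    refine Fin.succAboveCases (α := fun j => Function.update u i₁ τ j =
      Fin.insertNth (α := fun _ => ℝ) i₁ τ (u ∘ i₁.succAbove) j) i₁ ?_ (fun l => ?_) j
    · rw [Function.update_self, Fin.insertNth_apply_same]
    · rw [Function.update_of_ne (Fin.succAbove_ne i₁ l), Fin.insertNth_apply_succAbove]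
      rfl
  rw [e]

theorem coeff_fixt_map (i₁ : Fin (k + 1)) (τ : ℝ) (G : MvPolynomial (Fin (k + 1)) ℝ)
    (s : Fin k →₀ ℕ) : coeff (s.mapDomain i₁.succAbove) (fixt i₁ τ G) =
      coeff s (sect i₁ τ G) := by
  rw [fixt_sect, coeff_rename_mapDomain _ Fin.succAbove_right_injective]

theorem coeff_fixt_zero (i₁ : Fin (k + 1)) (τ : ℝ) (G : MvPolynomial (Fin (k + 1)) ℝ)
    {al : Fin (k + 1) →₀ ℕ} (h : ¬ ∃ s : Fin k →₀ ℕ, s.mapDomain i₁.succAbove = al) :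
    coeff al (fixt i₁ τ G) = 0 := by
  rw [fixt_sect]
  exact coeff_rename_eq_zero _ _ _ (fun u hu => absurd ⟨u, hu⟩ h)

theorem coeff_sect_zero (i₁ : Fin (k + 1)) (τ : ℝ) (G : MvPolynomial (Fin (k + 1)) ℝ) :
    coeff 0 (sect i₁ τ G) = eval (pnt i₁ 0 0 τ) G := by
  have h1 : eval (0 : Fin k → ℝ) (sect i₁ τ G) = coeff 0 (sect i₁ τ G) := by
    rw [MvPolynomial.eval_zero, MvPolynomial.constantCoeff_eq]
  rw [← h1, eval_sect]
  have h2 := insertNth_eq i₁ τ (0 : Fin (k + 1) → ℝ)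
  rw [← h2]
  rfl

theorem map_mem_mons {K : ℕ} (i₁ : Fin (k + 1)) {s : Fin k →₀ ℕ} (hs : s ∈ mons k K) :
    s.mapDomain i₁.succAbove ∈ mons (k + 1) K := by
  rw [mem_mons] at hs ⊢
  rw [Finsupp.sum_mapDomain_index_inj Fin.succAbove_right_injective]
  exact hs

/-- The coefficients of polynomials which are near on the unit box. -/
theorem coef_near (k K : ℕ) : ∃ C : ℝ, 0 ≤ C ∧ ∀ (A A' : MvPolynomial (Fin k) ℝ) (M : ℝ),
    A.totalDegree ≤ K → A'.totalDegree ≤ K →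
    (∀ z : Fin k → ℝ, (∀ j, 0 ≤ z j ∧ z j ≤ 1) → |eval z A - eval z A'| ≤ M) →
    ∀ s, |coeff s A - coeff s A'| ≤ C * M := by
  obtain ⟨C, hC, h⟩ := Pool.SLO.coef_cube k K
  refine ⟨C, hC, fun A A' M hA hA' hM s => ?_⟩
  have h1 := h (A - A') M ((totalDegree_sub _ _).trans (max_le hA hA')) (fun z hz => by
    rw [map_sub]
    exact hM z hz) s
  rwa [coeff_sub] at h1

open Classical in
/-- The data of `FR`. -/
noncomputable def sd (d : GPath.Dat (k + 1)) (f : FDat k d.Om) (K : ℕ) : Pool.OVN.SDat k where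
  Om := d.Om
  Lam := MvPolynomial (Fin k) ℝ × f.Ze
  Wt := f.Ze
  P := d.p
  L := fun ω => (f.B ω, f.Z ω)
  W := f.Z
  G := fun l => if l.1.totalDegree ≤ K then l.1 else 0
  y := f.s
  x := fun ω => eval (f.s ω) (f.B ω)

variable {d : GPath.Dat (k + 1)} {f : FDat k d.Om} {K e : ℕ} {C₁ D : ℝ}

theorem sd_G (hf : f.OK d.p K e C₁ D) (ω : d.Om) : (sd d f K).G ((sd d f K).L ω) = f.B ω := by
  classical
  exact if_pos (hf.deg ω)

theorem sd_ok (hp : IsLaw d.p) (hf : f.OK d.p K e C₁ D) (Q : ℕ) : (sd d f K).OK K 0 Q D where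
  law := hp
  hW := fun ω ω' _ _ h => (Prod.ext_iff.1 h).2
  deg := fun l => by
    classical
    change (if l.1.totalDegree ≤ K then l.1 else 0).totalDegree ≤ K
    split_ifs with h
    · exact h
    · rw [totalDegree_zero]
      exact Nat.zero_le _
  hx := fun ω _ => by
    rw [sd_G hf]
    change |eval (f.s ω) (f.B ω) - eval (f.s ω) (f.B ω)| ≤ _
    rw [sub_self, abs_zero]
    positivity
  grad := fun ω hω b hb j => by
    rw [sd_G hf]
    refine hf.grad ω hω b (fun i => ?_) j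
    have := hb i
    rwa [pow_zero, div_one] at this

theorem fl_zero (hf : f.OK d.p K e C₁ D) {ω : d.Om} (hω : 0 < d.p ω) : fl 0 (f.s ω) = 0 := by
  funext j
  change ⌊(2 : ℝ) ^ 0 * f.s ω j⌋ = 0
  have h := hf.hs ω hω j
  rw [pow_zero, one_mul, Int.floor_eq_zero_iff]
  exact ⟨h.1, h.2⟩

theorem sd_full (hp : IsLaw d.p) (hf : f.OK d.p K e C₁ D) {δ : ℝ} (h : f.Full d.p e δ) :
    (sd d f K).Full 0 e δ := by
  unfold Pool.OVN.SDat.Full
  unfold FDat.Full at h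
  rw [Nat.cast_zero, sub_zero]
  refine h.trans (CH_mono_cond hp.nonneg fun ω ω' a b hh => ?_)
  have e1 := Prod.ext_iff.1 hh
  refine Prod.ext (Prod.ext hh e1.2) ?_
  change fl 0 (f.s ω) = fl 0 (f.s ω')
  rw [fl_zero hf a, fl_zero hf b]

theorem sd_cel (r : ℕ) (ω : d.Om) : (sd d f K).cel r ω = fl r (f.s ω) := rfl

theorem sd_ger (hf : f.OK d.p K e C₁ D) (a : ℕ) (ω : d.Om) :
    (sd d f K).ger a ω = Pool.OVN.pul a (fl a (f.s ω)) (f.B ω) := by
  unfold Pool.OVN.SDat.ger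
  rw [sd_G hf]
  rfl

theorem ht_div (r h : ℕ) (x : ℝ) : ⌊(2 : ℝ) ^ r * x⌋ = ⌊(2 : ℝ) ^ (r + h) * x⌋ / 2 ^ h := by
  have e : (2 : ℝ) ^ (r + h) * x = 2 ^ h * (2 ^ r * x) := by ring
  rw [e]
  have h1 : ⌊(2 : ℝ) ^ r * x⌋ = ⌊(2 : ℝ) ^ h * (2 ^ r * x) / ((2 ^ h : ℕ) : ℝ)⌋ := by
    congr 1
    push_cast
    field_simp
  rw [h1, Int.floor_div_natCast]
  norm_num

/-- **The rows of the data.** -/
theorem sd_row {q : d.Om → ℝ} (hq : IsLaw q) (hqp : ∀ ω, 0 < q ω → 0 < d.p ω)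
    (hf : f.OK d.p K e C₁ D) (hC₁ : 0 ≤ C₁) (hD : 0 ≤ D) {R h : ℕ} (hR : R + h ≤ e) {μ ψ : ℝ}
    (hμ : mi q f.B f.s f.Z ≤ μ)
    (hψ : CH q (f.N (R + h)) (fun ω => (f.N R ω, (f.s ω, f.Z ω))) ≤ ψ) :
    CH q ((sd d f K).pnt (R + h)) (fun ω => ((sd d f K).pnt R ω, (sd d f K).W ω)) ≤
      k * (h * Real.log 2) + (μ + ψ + 4 * Real.log (4 * (C₁ + k * D + 3) + 1)) := by
  have hq0 := hq.nonneg
  have hkD : 0 ≤ k * D := mul_nonneg (Nat.cast_nonneg k) hD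
  have hM : 0 ≤ C₁ + k * D + 3 := by linarith
  have hα : ∀ ω, 0 < q ω → |(hr (R + h) (f.s ω) (f.B ω) : ℝ) -
      2 ^ (R + h) * eval (f.s ω) (f.B ω)| ≤ k * D + 1 := fun ω hω =>
    hr_near hD (hf.grad ω (hqp ω hω))
  have hβ : ∀ ω, 0 < q ω → |2 ^ R * eval (f.s ω) (f.B ω) -
      ((hr (R + h) (f.s ω) (f.B ω) / 2 ^ h : ℤ) : ℝ)| ≤ k * D + 2 := fun ω hω => by
    have h1 := ediv_near (u := hr (R + h) (f.s ω) (f.B ω))
      (y := 2 ^ R * eval (f.s ω) (f.B ω)) h (M := k * D + 1) (by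
        have h2 := hα ω hω
        have e1 : (2 : ℝ) ^ h * (2 ^ R * eval (f.s ω) (f.B ω)) =
            2 ^ (R + h) * eval (f.s ω) (f.B ω) := by ring
        rw [e1]
        exact h2)
    linarith
  have main := rows_step hq (B := f.B) (s := f.s) (Z := f.Z)
    (v := fun ω => fl (R + h) (f.s ω)) (α := fun ω => hr (R + h) (f.s ω) (f.B ω))
    (a' := (sd d f K).ht (R + h)) (a := (sd d f K).ht R) (n' := f.N (R + h)) (n := f.N R)
    (h := h) hM (fun ω ω' _ _ e => by simp only [e]) (fun ω ω' _ _ e => by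
      simp only [Prod.mk.injEq] at e
      simp only [hr, e.1, e.2]) ?_ ?_ ?_ ?_ hμ hψ
  · have t2 := CH_le_add hq0 ((sd d f K).pnt (R + h)) ((sd d f K).cel (R + h))
      (fun ω => ((sd d f K).pnt R ω, (sd d f K).W ω))
    have t3 : CH q ((sd d f K).pnt (R + h)) (fun ω => ((sd d f K).cel (R + h) ω,
        ((sd d f K).pnt R ω, (sd d f K).W ω))) ≤
        CH q ((sd d f K).ht (R + h)) (fun ω => ((sd d f K).cel (R + h) ω,
          ((sd d f K).pnt R ω, (sd d f K).W ω))) := by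
      refine CH_mono_left hq0 fun ω ω' _ _ e => ?_
      simp only [Prod.mk.injEq] at e
      exact Prod.ext e.2.1 e.1
    have t4 : CH q ((sd d f K).ht (R + h)) (fun ω => ((sd d f K).cel (R + h) ω,
        ((sd d f K).pnt R ω, (sd d f K).W ω))) ≤
        CH q ((sd d f K).ht (R + h)) (fun ω => (fl (R + h) (f.s ω),
          ((sd d f K).ht R ω, f.Z ω))) := by
      refine CH_mono_cond hq0 fun ω ω' _ _ e => ?_
      have e1 := Prod.ext_iff.1 e
      have e2 := Prod.ext_iff.1 e1.2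
      exact Prod.ext e1.1 (Prod.ext (Prod.ext_iff.1 e2.1).2 e2.2)
    have t5 := (sd d f K).CH_cel_le hq (fun ω => ((sd d f K).pnt R ω, (sd d f K).W ω)) R h
      (fun ω ω' _ _ e => (Prod.ext_iff.1 (Prod.ext_iff.1 e).1).1)
    exact t2.trans (add_le_add t5 (t3.trans (t4.trans main)))
  · intro ω hω
    have h1 := hα ω hω
    have h2 := Int.floor_le ((2 : ℝ) ^ (R + h) * eval (f.s ω) (f.B ω))
    have h3 := Int.lt_floor_add_one ((2 : ℝ) ^ (R + h) * eval (f.s ω) (f.B ω))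
    change |((⌊(2 : ℝ) ^ (R + h) * eval (f.s ω) (f.B ω)⌋ -
      hr (R + h) (f.s ω) (f.B ω) : ℤ) : ℝ)| ≤ _
    push_cast
    rw [abs_le] at h1 ⊢
    constructor <;> linarith [h1.1, h1.2]
  · intro ω hω
    have h1 := hβ ω hω
    have h2 := Int.floor_le ((2 : ℝ) ^ R * eval (f.s ω) (f.B ω))
    have h3 := Int.lt_floor_add_one ((2 : ℝ) ^ R * eval (f.s ω) (f.B ω))
    change |((⌊(2 : ℝ) ^ R * eval (f.s ω) (f.B ω)⌋ -
      hr (R + h) (f.s ω) (f.B ω) / 2 ^ h : ℤ) : ℝ)| ≤ _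
    rw [Int.cast_sub]
    rw [abs_le] at h1 ⊢
    constructor <;> linarith [h1.1, h1.2]
  · intro ω hω
    have h1 := hα ω hω
    have h2 := hf.near ω (hqp ω hω) (R + h) hR
    rw [Int.cast_sub]
    rw [abs_le] at h1 h2 ⊢
    constructor <;> linarith [h1.1, h1.2, h2.1, h2.2]
  · intro ω hω
    have h1 := hβ ω hω
    have h2 := hf.near ω (hqp ω hω) R (by omega)
    rw [Int.cast_sub]
    rw [abs_le] at h1 h2 ⊢
    constructor <;> linarith [h1.1, h1.2, h2.1, h2.2]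

/-- The own sheet of the data `d` is near the own sheet of the large box on the cell. -/
def Cls (d : GPath.Dat (k + 1)) (f : FDat k d.Om) (i₁ : Fin (k + 1)) (a Q : ℕ) (C₁ : ℝ) : Prop :=
  ∀ ω, 0 < d.p ω → ∀ z : Fin k → ℝ, (∀ j, 0 ≤ z j ∧ z j ≤ 1) →
    |eval (Fin.insertNth (α := fun _ => ℝ) i₁ (d.tm ω) z) (d.G ω) -
      eval (fun j => (fl a (f.s ω) j : ℝ) / 2 ^ a + 1 / 2 ^ a * z j) (f.B ω)| ≤ C₁ / 2 ^ Q

/-- The coefficients of the own sheet of the data. -/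
theorem cls_coeff (k K : ℕ) : ∃ C : ℝ, 0 ≤ C ∧ ∀ (d : GPath.Dat (k + 1)) (f : FDat k d.Om)
    (i₁ : Fin (k + 1)) (a Q e : ℕ) (C₁ D : ℝ), (∀ ω, (d.G ω).totalDegree ≤ K) →
    f.OK d.p K e C₁ D → Cls d f i₁ a Q C₁ → ∀ ω, 0 < d.p ω → ∀ s,
      |coeff s (sect i₁ (d.tm ω) (d.G ω)) - coeff s ((sd d f K).ger a ω)| ≤ C * C₁ / 2 ^ Q := by
  obtain ⟨C, hC, h⟩ := coef_near k K
  refine ⟨C, hC, fun d f i₁ a Q e C₁ D hG hf hcl ω hω s => ?_⟩
  have h1 := h (sect i₁ (d.tm ω) (d.G ω)) ((sd d f K).ger a ω) (C₁ / 2 ^ Q)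
    ((totalDegree_sect_le _ _ _).trans (hG ω)) (by
      rw [sd_ger hf]
      exact (Pool.OVN.Hgt.totalDegree_pul _ _ _).trans (hf.deg ω)) (fun z hz => by
      rw [sd_ger hf, eval_sect, Pool.OVN.Hgt.eval_pul]
      exact hcl ω hω z hz) s
  rwa [← mul_div_assoc] at h1

/-- **The shape** of the own sheet of the data given the shape of the large own sheet. -/
theorem out_shape (k K : ℕ) (C₁ : ℝ) (hC₁ : 0 ≤ C₁) : ∃ C : ℝ, 0 ≤ C ∧
    ∀ (d : GPath.Dat (k + 1)) (f : FDat k d.Om) (i₁ : Fin (k + 1)) (a Q e : ℕ) (D : ℝ),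
      IsLaw d.p → (∀ ω, (d.G ω).totalDegree ≤ K) → f.OK d.p K e C₁ D → Cls d f i₁ a Q C₁ →
      CH d.p (d.Sh i₁ K Q) ((sd d f K).shp a Q) ≤ C := by
  classical
  obtain ⟨C, hC, hcl⟩ := cls_coeff k K
  have hl : 0 ≤ Real.log (2 * (2 * (C * C₁) + 2) + 1) := Real.log_nonneg (by
    have : 0 ≤ C * C₁ := by positivity
    linarith)
  refine ⟨(mons (k + 1) K).card * Real.log (2 * (2 * (C * C₁) + 2) + 1), by positivity, ?_⟩
  intro d f i₁ a Q e D hp hG hf hc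
  refine ch_mons hp (mons (k + 1) K) (d.Sh i₁ K Q) _ _ _ ?_ ?_
  · intro ω ω' hω hω' hh al hal
    unfold GPath.Dat.Sh
    by_cases h2 : al ∈ mons (k + 1) K ∧ al ≠ 0
    · rw [if_pos h2, if_pos h2]
      unfold SLO.hz
      by_cases hs : ∃ s : Fin k →₀ ℕ, s.mapDomain i₁.succAbove = al
      · obtain ⟨s, hs⟩ := hs
        have h3 : s ≠ 0 := by
          intro h0
          rw [h0, Finsupp.mapDomain_zero] at hs
          exact h2.2 hs.symm
        have h4 : (if s = 0 then 0 else Pool.OVN.hz Q ((sd d f K).ger a ω) s) =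
            if s = 0 then 0 else Pool.OVN.hz Q ((sd d f K).ger a ω') s := congrFun hh s
        rw [if_neg h3, if_neg h3] at h4
        rw [← hs, coeff_fixt_map, coeff_fixt_map]
        exact hz_two (hcl d f i₁ a Q e C₁ D hG hf hc ω hω s)
          (hcl d f i₁ a Q e C₁ D hG hf hc ω' hω' s) h4
      · rw [coeff_fixt_zero _ _ _ hs, coeff_fixt_zero _ _ _ hs, sub_self, Int.cast_zero, abs_zero]
        positivity
    · rw [if_neg h2, if_neg h2, sub_self, Int.cast_zero, abs_zero]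
      positivity
  · intro ω ω' _ _ _ hh
    funext al
    by_cases h2 : al ∈ mons (k + 1) K
    · exact hh al h2
    · unfold GPath.Dat.Sh
      rw [if_neg (fun h3 => h2 h3.1), if_neg (fun h3 => h2 h3.1)]

/-- **The context** of the large own sheet given the static box of the data. -/
theorem out_ctx (k K : ℕ) (C₁ : ℝ) (hC₁ : 0 ≤ C₁) : ∃ C : ℝ, 0 ≤ C ∧
    ∀ (d : GPath.Dat (k + 1)) (f : FDat k d.Om) (i₁ : Fin (k + 1)) (a Q e : ℕ) (D : ℝ),
      IsLaw d.p → (∀ ω, (d.G ω).totalDegree ≤ K) → f.OK d.p K e C₁ D → Cls d f i₁ a Q C₁ →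
      Det d.p (fun ω => (d.T ω, d.E ω)) (fun ω => (f.Z ω, fl a (f.s ω))) →
      CH d.p ((sd d f K).ctx a Q) (d.bx i₁ K Q) ≤ C := by
  classical
  obtain ⟨C, hC, hcl⟩ := cls_coeff k K
  have hl : 0 ≤ Real.log (2 * (2 * (C * C₁) + 2) + 1) := Real.log_nonneg (by
    have : 0 ≤ C * C₁ := by positivity
    linarith)
  refine ⟨(mons k K).card * Real.log (2 * (2 * (C * C₁) + 2) + 1), by positivity, ?_⟩
  intro d f i₁ a Q e D hp hG hf hc hdet
  refine ch_mons hp (mons k K) (fun ω => Pool.OVN.hz Q ((sd d f K).ger a ω)) _ _ _ ?_ ?_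
  · intro ω ω' hω hω' hh s hs
    have e1 := Prod.ext_iff.1 hh
    have e2 := Prod.ext_iff.1 e1.2
    have h1 := hcl d f i₁ a Q e C₁ D hG hf hc ω hω s
    have h2 := hcl d f i₁ a Q e C₁ D hG hf hc ω' hω' s
    rw [abs_sub_comm] at h1 h2
    refine hz_two h1 h2 ?_
    by_cases h0 : s = 0
    · subst h0
      rw [coeff_sect_zero, coeff_sect_zero]
      exact e2.1
    · have h3 : d.Sh i₁ K Q ω (s.mapDomain i₁.succAbove) =
          d.Sh i₁ K Q ω' (s.mapDomain i₁.succAbove) := congrFun e2.2 _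
      have h4 : s.mapDomain i₁.succAbove ≠ 0 := fun h => h0
        (Finsupp.mapDomain_injective Fin.succAbove_right_injective
          (h.trans Finsupp.mapDomain_zero.symm))
      unfold GPath.Dat.Sh at h3
      rw [if_pos ⟨map_mem_mons i₁ hs, h4⟩, if_pos ⟨map_mem_mons i₁ hs, h4⟩] at h3
      unfold SLO.hz at h3
      rwa [coeff_fixt_map, coeff_fixt_map] at h3
  · intro ω ω' hω hω' hh hfn
    have e1 := Prod.ext_iff.1 hh
    have e3 := Prod.ext_iff.1 (hdet ω ω' hω hω' e1.1)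
    refine Prod.ext e3.1 (Prod.ext e3.2 ?_)
    funext s
    by_cases hs : s ∈ mons k K
    · exact hfn s hs
    · have h5 : ∀ ω₀ : d.Om, coeff s ((sd d f K).ger a ω₀) = 0 := by
        intro ω₀
        by_contra hne
        refine hs (mem_mons.2 ((le_totalDegree (mem_support_iff.2 hne)).trans ?_))
        rw [sd_ger hf]
        exact (Pool.OVN.Hgt.totalDegree_pul _ _ _).trans (hf.deg ω₀)
      change ⌊(2 : ℝ) ^ Q * coeff s ((sd d f K).ger a ω)⌋ =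
        ⌊(2 : ℝ) ^ Q * coeff s ((sd d f K).ger a ω')⌋
      rw [h5, h5]

end out

theorem Pr_Pb {Ω : Type} [Fintype Ω] (p : Ω → ℝ) (E : Set Ω) :
    Pr p E = Pb p (fun ω => ω ∈ E) := by
  classical
  rw [Pool.KAF.Pr_eq]
  unfold Pb
  refine Finset.sum_congr rfl fun ω _ => ?_
  congr

/-- **The F-step.** -/
theorem fstep (k K : ℕ) (c ε D C₁ : ℝ) (hc : 0 < c) (hε : 0 < ε) (hD : 0 ≤ D) (hC₁ : 0 ≤ C₁) :
    ∃ (κ π₀ δ₀ : ℝ) (X₀ : ℕ), 0 < κ ∧ κ ≤ 1 ∧ 0 < π₀ ∧ 0 < δ₀ ∧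
      ∀ (d : GPath.Dat (k + 1)) (f : FDat k d.Om) (i₁ : Fin (k + 1)) (a e X : ℕ),
        X₀ ≤ X → 3 * X ≤ a → (2 * K + 1) * X ≤ e → IsLaw d.p →
        (∀ ω, (d.G ω).totalDegree ≤ K) → f.OK d.p K e C₁ D →
        Det d.p (fun ω => (d.T ω, d.E ω)) (fun ω => (f.Z ω, fl a (f.s ω))) →
        Cls d f i₁ a (e + X) C₁ → f.Full d.p e (δ₀ * X) → f.Ind d.p (δ₀ * X) →
        f.Row d.p K e X c κ π₀ → d.FR i₁ K e X (ε * X) := by
  have hl2 : 0 < Real.log 2 := Real.log_pos (by norm_num)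
  obtain ⟨κ, π₀, δ₁, Y₀, hκ0, hκ1, hπ, hδ, hmain⟩ :=
    Pool.FRF.fr k K (c / 2) (ε / 2) D (by positivity) (by positivity)
  obtain ⟨Ca, hCa, hsh⟩ := out_shape k K C₁ hC₁
  obtain ⟨Cb, hCb, hcx⟩ := out_ctx k K C₁ hC₁
  obtain ⟨L, hL⟩ : ∃ L : ℝ, L = Real.log 2 / π₀ + 4 * Real.log (4 * (C₁ + k * D + 3) + 1) :=
    ⟨_, rfl⟩
  obtain ⟨X₁, hX₁⟩ := exists_nat_ge (L / (c / 4 * κ * Real.log 2))
  obtain ⟨X₂, hX₂⟩ := exists_nat_ge ((Ca + Cb) / (ε / 2))
  refine ⟨κ, π₀, min δ₁ (c / 4 * κ * π₀ * Real.log 2), max Y₀ (max X₁ X₂), hκ0, hκ1, hπ,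
    lt_min hδ (by positivity), ?_⟩
  intro d f i₁ a e X hX ha he hp hG hf hdet hcl hfull hind hrow
  have hXY : Y₀ ≤ X := (le_max_left _ _).trans hX
  have hXX₁ : X₁ ≤ X := (le_max_left _ _).trans ((le_max_right _ _).trans hX)
  have hXX₂ : X₂ ≤ X := (le_max_right _ _).trans ((le_max_right _ _).trans hX)
  have hX0 : (0 : ℝ) ≤ X := Nat.cast_nonneg X
  have hL2 : L ≤ c / 4 * κ * Real.log 2 * X := by
    rw [div_le_iff₀ (by positivity)] at hX₁
    have h1 : (X₁ : ℝ) ≤ X := by exact_mod_cast hXX₁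
    calc L ≤ X₁ * (c / 4 * κ * Real.log 2) := hX₁
      _ ≤ X * (c / 4 * κ * Real.log 2) := mul_le_mul_of_nonneg_right h1 (by positivity)
      _ = _ := by ring
  have hC2 : Ca + Cb ≤ ε / 2 * X := by
    rw [div_le_iff₀ (by positivity)] at hX₂
    have h1 : (X₂ : ℝ) ≤ X := by exact_mod_cast hXX₂
    calc Ca + Cb ≤ X₂ * (ε / 2) := hX₂
      _ ≤ X * (ε / 2) := mul_le_mul_of_nonneg_right h1 (by positivity)
      _ = _ := by ring
  have hδX : min δ₁ (c / 4 * κ * π₀ * Real.log 2) * X ≤ δ₁ * X :=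
    mul_le_mul_of_nonneg_right (min_le_left _ _) hX0
  have hδX' : min δ₁ (c / 4 * κ * π₀ * Real.log 2) * X ≤ c / 4 * κ * π₀ * Real.log 2 * X :=
    mul_le_mul_of_nonneg_right (min_le_right _ _) hX0
  have hrw : ∀ R h : ℕ, κ * X ≤ h → e ≤ R + (2 * K + 1) * X → R + h ≤ e →
      ∀ E : Set d.Om, π₀ ≤ Pr d.p E →
        CH (Pool.Agent.H49.Ent.cond d.p (fun ω => ω ∈ E) True) ((sd d f K).pnt (R + h))
          (fun ω => ((sd d f K).pnt R ω, (sd d f K).W ω)) ≤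
            (k + 1 - c / 2) * (h * Real.log 2) := by
    intro R h hκ hR hRe E hE
    have hE' : π₀ ≤ Pb d.p (fun ω => ω ∈ E) := by
      rw [← Pr_Pb]
      exact hE
    have hq := Pool.MIC.isLaw_ev hp (fun ω => ω ∈ E) (hπ.trans_le hE')
    have hqp : ∀ ω, 0 < Pool.Agent.H49.Ent.cond d.p (fun ω => ω ∈ E) True ω → 0 < d.p ω :=
      fun ω hω => (Pool.MIC.ev_pos hp.nonneg _ hω).1
    have hmi : mi (Pool.Agent.H49.Ent.cond d.p (fun ω => ω ∈ E) True) f.B f.s f.Z ≤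
        c / 4 * κ * Real.log 2 * X + Real.log 2 / π₀ := by
      have t1 := Pool.MIC.mi_event hp f.B f.Z (fun ω => (f.s ω, f.Z ω))
        (fun ω ω' _ _ e => (Prod.ext_iff.1 e).2)
        (θ := min δ₁ (c / 4 * κ * π₀ * Real.log 2) * X) (by
          have := hind
          unfold FDat.Ind mi at this
          linarith) (fun ω => ω ∈ E)
      have t2 := mi_nonneg hq.nonneg f.B f.s f.Z
      have t3 : Pb d.p (fun ω => ω ∈ E) *
          mi (Pool.Agent.H49.Ent.cond d.p (fun ω => ω ∈ E) True) f.B f.s f.Z ≤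
          min δ₁ (c / 4 * κ * π₀ * Real.log 2) * X + Real.log 2 := by
        unfold mi
        rw [mul_sub]
        linarith
      have t4 : π₀ * mi (Pool.Agent.H49.Ent.cond d.p (fun ω => ω ∈ E) True) f.B f.s f.Z ≤
          c / 4 * κ * π₀ * Real.log 2 * X + Real.log 2 :=
        (mul_le_mul_of_nonneg_right hE' t2).trans (t3.trans (by linarith))
      have t5 : c / 4 * κ * π₀ * Real.log 2 * X + Real.log 2 =
          π₀ * (c / 4 * κ * Real.log 2 * X + Real.log 2 / π₀) := by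
        field_simp
      rw [t5] at t4
      exact le_of_mul_le_mul_left t4 hπ
    have t6 := sd_row hq hqp hf hC₁ hD hRe hmi (hrow R h hκ hR hRe E hE)
    refine t6.trans ?_
    have t7 : c / 2 * (κ * X) * Real.log 2 ≤ c / 2 * h * Real.log 2 :=
      mul_le_mul_of_nonneg_right (mul_le_mul_of_nonneg_left hκ (by positivity)) hl2.le
    rw [hL] at hL2
    nlinarith
  have h1 : CH d.p ((sd d f K).shp a (e + X)) ((sd d f K).ctx a e) ≤ ε / 2 * X := by
    refine hmain (sd d f K) 0 a e X hXY (by omega) he (sd_ok hp hf e) ?_ ?_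
    · refine sd_full hp hf ?_
      unfold FDat.Full at hfull ⊢
      linarith
    · exact fun R h hκ hR hRe E hE => hrw R h hκ hR hRe E hE
  have h2 := hsh d f i₁ a (e + X) e D hp hG hf hcl
  have h3 := hcx d f i₁ a e e D hp hG hf (fun ω hω z hz => (hcl ω hω z hz).trans
    (div_le_div_of_nonneg_left hC₁ (by positivity)
      (pow_le_pow_right₀ (by norm_num) (by omega)))) hdet
  have hp0 := hp.nonneg
  have tri : ∀ {S T U : Type} (A : d.Om → S) (A' : d.Om → T) (A'' : d.Om → U),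
      CH d.p A A'' ≤ CH d.p A A' + CH d.p A' A'' := by
    intro S T U A A' A''
    have e1 := CH_le_add hp0 A A' A''
    have e2 : CH d.p A (fun ω => (A' ω, A'' ω)) ≤ CH d.p A A' :=
      CH_mono_cond hp0 fun ω ω' _ _ h => (Prod.ext_iff.1 h).1
    linarith
  have g1 := tri (d.Sh i₁ K (e + X)) ((sd d f K).shp a (e + X)) (d.bx i₁ K e)
  have g2 := tri ((sd d f K).shp a (e + X)) ((sd d f K).ctx a e) (d.bx i₁ K e)
  unfold GPath.Dat.FR
  linarith

end Pool.FSTP
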