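import Pool.Agent.H65.OVN.All

/-!
# FR over one natural box, in context

`XDat n K`: a sample with a context `G`, an own leaf `L`, a position `T` in a box (unit
coordinates `th`), the digits `v` of the coefficients of the leaf in the unit coordinates, and the
rows `N` of the height. `frb_thm`: if the rows are not full on any large event, then the digits of
the shape of the leaf have small entropy given the context, up to the deficit of the position given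
the leaf and the dependence of the height on the shape given the position.
-/

set_option autoImplicit false

namespace Pool.FRB

open Finset Real
open Pool.Agent.H49.Ent Pool.Agent.H32.Dense Pool.STK Pool.KVA Pool.KAF Pool.OVN

/-- One natural box, in context. -/
structure XDat (n K : ℕ) where
  Om : Type
  Gam : Type
  Lam : Type
  Tau : Type
  [fin : Fintype Om]
  P : Om → ℝ
  /-- the context -/
  G : Om → Gam
  /-- the own leaf -/
  L : Om → Lam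
  /-- the position in the box -/
  T : Om → Tau
  /-- the digits of the coefficients of the leaf -/
  v : Gam → Lam → Pool.M5.Mon n K → ℤ
  /-- the unit coordinates of the position -/
  th : Gam → Tau → Fin n → ℝ
  /-- the rows of the height -/
  N : Om → ℤ
  X : ℕ

attribute [instance] XDat.fin

namespace XDat

variable {n K : ℕ} (d : XDat n K)

/-- The data of the prediction lemma in the context `g`. -/
noncomputable def kd (g : d.Gam) : KDat n K where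
  Om := d.Om
  Lam := d.Lam
  Tau := d.Tau
  P := cond d.P d.G g
  L := d.L
  T := d.T
  v := d.v g
  N := d.N
  th := d.th g
  X := d.X

/-- The row `r` of the height. -/
def row (r : ℕ) (ω : d.Om) : ℤ := d.N ω / 2 ^ (d.X - r)

/-- The unit coordinates up to `r` digits. -/
noncomputable def u (r : ℕ) (ω : d.Om) : Fin n → ℤ := fl r (d.th (d.G ω) (d.T ω))

/-- The shape. -/
def s (ω : d.Om) : Pool.M5.Mon n K → ℤ := d.v (d.G ω) (d.L ω)

/-- The basic assumptions. -/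
structure OK (A : ℕ) : Prop where
  law : IsLaw d.P
  hv : ∀ g l s, |(d.v g l s : ℝ) / 2 ^ d.X| ≤ 1
  hN : Det d.P (fun ω => (d.G ω, (d.L ω, d.T ω))) d.N
  hth : ∀ g t j, 0 ≤ d.th g t j ∧ d.th g t j < 1
  hZ : ∀ ω ω', 0 < d.P ω → 0 < d.P ω' → d.G ω = d.G ω' → d.L ω = d.L ω' →
    |((d.N ω' : ℝ) - d.N ω) - 2 ^ d.X * ∑ s, (d.v (d.G ω) (d.L ω) s / 2 ^ d.X) *
      (Pool.M5.mono (s : Fin n → ℕ) (d.th (d.G ω) (d.T ω')) -
        Pool.M5.mono (s : Fin n → ℕ) (d.th (d.G ω) (d.T ω)))| ≤ 2 ^ A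

/-- The blocks of rows of the height are not full, given the position and the context, on any
large event. -/
def NF (c κ π₀ : ℝ) : Prop :=
  ∀ j : ℕ, (j + 1) * ⌊κ * d.X⌋₊ ≤ d.X → ∀ E : Set d.Om, π₀ ≤ Pr d.P E →
    CH (cond d.P (fun ω => ω ∈ E) True) (d.row ((j + 1) * ⌊κ * d.X⌋₊))
      (fun ω => (d.row (j * ⌊κ * d.X⌋₊) ω, (d.T ω, d.G ω))) ≤ (1 - c) * ⌊κ * d.X⌋₊ * Real.log 2

/-- The deficit of the first `r` digits of the position given the leaf. -/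
noncomputable def df (r : ℕ) : ℝ :=
  n * (r * Real.log 2) - CH d.P (d.u r) (fun ω => (d.L ω, d.G ω))

variable {d}

theorem kd_ok {A : ℕ} (hd : d.OK A) {ω : d.Om} (hω : 0 < d.P ω) : (d.kd (d.G ω)).OK A := by
  have hp0 := hd.law.nonneg
  refine ⟨isLaw_cond' hd.law d.G hω, fun l s => hd.hv _ l s, ?_, fun t j => hd.hth _ t j, ?_⟩
  · intro u u' hu hu' h
    have g1 := (cond_pos_iff hp0 _ _ u).1 hu
    have g2 := (cond_pos_iff hp0 _ _ u').1 hu'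
    exact hd.hN u u' g1.1 g2.1 (Prod.ext (g1.2.trans g2.2.symm) h)
  · intro u u' hu hu' h
    have g1 := (cond_pos_iff hp0 _ _ u).1 hu
    have g2 := (cond_pos_iff hp0 _ _ u').1 hu'
    have h1 := hd.hZ u u' g1.1 g2.1 (g1.2.trans g2.2.symm) h
    rw [g1.2] at h1
    exact h1

/-- A context with a full block on a large event. -/
def Bad (d : XDat n K) (h j : ℕ) (c₁ π₁ : ℝ) (g : d.Gam) : Prop :=
  ∃ E : Set d.Om, π₁ ≤ Pr (cond d.P d.G g) E ∧ (1 - c₁) * h * Real.log 2 <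
    CH (cond (cond d.P d.G g) (fun ω => ω ∈ E) True) (d.row ((j + 1) * h))
      (fun ω => (d.row (j * h) ω, d.T ω))

theorem bad_le {A h j : ℕ} {c c₁ π₀ π₁ : ℝ} (hd : d.OK A)
    (hNF : ∀ E : Set d.Om, π₀ ≤ Pr d.P E →
      CH (cond d.P (fun ω => ω ∈ E) True) (d.row ((j + 1) * h))
        (fun ω => (d.row (j * h) ω, (d.T ω, d.G ω))) ≤ (1 - c) * h * Real.log 2)
    (hh : 0 < h) (hc : c₁ < c) (hπ₀ : 0 < π₀) :
    π₁ * Pr d.P {ω | d.Bad h j c₁ π₁ (d.G ω)} ≤ π₀ := by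
  classical
  by_contra hcon
  push Not at hcon
  have hp := hd.law
  have hp0 := hp.nonneg
  have hl2 : 0 < Real.log 2 := Real.log_pos (by norm_num)
  obtain ⟨Eb, hEb⟩ : ∃ Eb : d.Gam → Set d.Om, ∀ b, d.Bad h j c₁ π₁ b →
      π₁ ≤ Pr (cond d.P d.G b) (Eb b) ∧ (1 - c₁) * h * Real.log 2 <
      CH (cond (cond d.P d.G b) (fun ω => ω ∈ Eb b) True) (d.row ((j + 1) * h))
        (fun ω => (d.row (j * h) ω, d.T ω)) := by
    refine ⟨fun b => if hb : d.Bad h j c₁ π₁ b then hb.choose else ∅, fun b hb => ?_⟩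
    simp only
    rw [dif_pos hb]
    exact hb.choose_spec
  obtain ⟨F, hFd⟩ : ∃ F : Set d.Om, F = {ω | d.Bad h j c₁ π₁ (d.G ω) ∧ ω ∈ Eb (d.G ω)} :=
    ⟨_, rfl⟩
  have hF : ∀ ω, ω ∈ F ↔ d.Bad h j c₁ π₁ (d.G ω) ∧ ω ∈ Eb (d.G ω) := fun ω => by
    rw [hFd]
    exact Iff.rfl
  have hPF : π₀ ≤ Pr d.P F := by
    refine hcon.le.trans ?_
    rw [← Pool.KX.AVG.Pr_cond_sum hp0 d.G F, Pool.KAF.Pr_eq, Finset.mul_sum]
    refine Finset.sum_le_sum fun ω _ => ?_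
    by_cases hω : ω ∈ {ω | d.Bad h j c₁ π₁ (d.G ω)}
    · rw [if_pos hω]
      rcases (hp0 ω).eq_or_lt with h0 | h0
      · rw [← h0, mul_zero, zero_mul]
      rw [mul_comm]
      refine mul_le_mul_of_nonneg_left ((hEb _ hω).1.trans ?_) h0.le
      refine Pr_mono (fun v => cond_nonneg hp0 _ _ v) fun v hv hvE => ?_
      have h2 := ((cond_pos_iff hp0 _ _ v).1 hv).2
      rw [hF, h2]
      exact ⟨hω, hvE⟩
    · rw [if_neg hω, mul_zero]
      exact mul_nonneg (hp0 ω) (law_nonneg (fun v => cond_nonneg hp0 _ _ v) _ _)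
  have hF0 : 0 < Pr d.P F := hπ₀.trans_le hPF
  obtain ⟨q, hq⟩ : ∃ q, q = cond d.P (fun ω => ω ∈ F) True := ⟨_, rfl⟩
  have hql : IsLaw q := by
    rw [hq]
    exact ⟨fun v => cond_nonneg hp0 _ _ v, sum_cond _ _ hF0.ne'⟩
  have hq0 := hql.nonneg
  have hqp : ∀ ω, 0 < q ω → 0 < d.P ω ∧ ω ∈ F := fun ω hω => by
    rw [hq] at hω
    have := (cond_pos_iff hp0 _ _ ω).1 hω
    exact ⟨this.1, by simpa using this.2⟩
  have h1 : (1 - c₁) * h * Real.log 2 ≤ CH q (d.row ((j + 1) * h))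
      (fun ω => ((d.row (j * h) ω, d.T ω), d.G ω)) := by
    rw [Pool.OCG.CH_pair_eq_Ex hq0]
    rw [← Ex_const hql.sum_one ((1 - c₁) * h * Real.log 2)]
    refine Ex_mono hq0 fun ω hω => ?_
    obtain ⟨g1, g2⟩ := hqp ω hω
    have g3 := cond_union hp d.G F (Eb (d.G ω)) g1 g2 (fun u hu => by
      rw [hF, hu]
      exact ⟨fun k => k.2, fun k => ⟨((hF ω).1 g2).1, k⟩⟩)
    rw [hq, g3]
    exact (hEb _ ((hF ω).1 g2).1).2.le
  have h2 := hNF F hPF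
  rw [← hq] at h2
  have h3 : CH q (d.row ((j + 1) * h)) (fun ω => ((d.row (j * h) ω, d.T ω), d.G ω)) =
      CH q (d.row ((j + 1) * h)) (fun ω => (d.row (j * h) ω, (d.T ω, d.G ω))) := by
    refine CH_congr hq0 (fun _ _ _ _ h => (Prod.ext_iff.1 h).1)
      (fun _ _ _ _ h => (Prod.ext_iff.1 h).1) ?_ ?_ <;>
    · intro ω ω' _ _ h
      simp only [Prod.mk.injEq] at h ⊢
      tauto
  rw [h3] at h1
  have h4 : (0 : ℝ) < h := by exact_mod_cast hh
  have h5 : 0 < (c - c₁) * (h * Real.log 2) := mul_pos (sub_pos.2 hc) (mul_pos h4 hl2)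
  nlinarith

theorem u_digits (hth : ∀ g t j, 0 ≤ d.th g t j ∧ d.th g t j < 1) (r : ℕ) (g : d.Gam) (t : d.Tau)
    (i : Fin n) : 0 ≤ fl r (d.th g t) i ∧ fl r (d.th g t) i < 2 ^ r := by
  obtain ⟨h1, h2⟩ := hth g t i
  show 0 ≤ ⌊(2 : ℝ) ^ r * d.th g t i⌋ ∧ ⌊(2 : ℝ) ^ r * d.th g t i⌋ < 2 ^ r
  refine ⟨Int.floor_nonneg.2 (by positivity), ?_⟩
  rw [Int.floor_lt]
  push_cast
  have : (0 : ℝ) < 2 ^ r := by positivity
  nlinarith

theorem df_term_nonneg {A : ℕ} (hd : d.OK A) (r : ℕ) (g : d.Gam) {q : d.Om → ℝ} (hq : IsLaw q) :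
    0 ≤ n * (r * Real.log 2) - CH q (fun ω => fl r (d.th g (d.T ω))) d.L := by
  have h1 := CH_box (m := r) hq (fun ω => fl r (d.th g (d.T ω))) d.L
    (fun ω _ i => u_digits hd.hth r g (d.T ω) i)
  rw [Fintype.card_fin] at h1
  linarith

/-- The deficit in the mean over the contexts. -/
theorem Ex_df {A : ℕ} (hd : d.OK A) (r : ℕ) :
    Ex d.P (fun ω => n * (r * Real.log 2) - CH (cond d.P d.G (d.G ω))
      (fun ω' => fl r (d.th (d.G ω) (d.T ω'))) d.L) = d.df r := by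
  have hp := hd.law
  have hp0 := hp.nonneg
  have e1 : Ex d.P (fun ω => n * (r * Real.log 2) - CH (cond d.P d.G (d.G ω))
      (fun ω' => fl r (d.th (d.G ω) (d.T ω'))) d.L) =
      Ex d.P (fun ω => n * (r * Real.log 2) - CH (cond d.P d.G (d.G ω)) (d.u r) d.L) := by
    unfold Ex
    refine Finset.sum_congr rfl fun ω _ => ?_
    show d.P ω * (n * (r * Real.log 2) - CH (cond d.P d.G (d.G ω))
      (fun ω' => fl r (d.th (d.G ω) (d.T ω'))) d.L) =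
      d.P ω * (n * (r * Real.log 2) - CH (cond d.P d.G (d.G ω)) (d.u r) d.L)
    congr 2
    refine CH_congr (fun v => cond_nonneg hp0 _ _ v) ?_ ?_ (fun _ _ _ _ h => h)
      (fun _ _ _ _ h => h)
    · intro a b ha hb h
      have g1 := ((cond_pos_iff hp0 _ _ a).1 ha).2
      have g2 := ((cond_pos_iff hp0 _ _ b).1 hb).2
      have h1 := (Prod.ext_iff.1 h).1
      simp only at h1
      show fl r (d.th (d.G a) (d.T a)) = fl r (d.th (d.G b) (d.T b))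
      rw [g1, g2]
      exact h1
    · intro a b ha hb h
      have g1 := ((cond_pos_iff hp0 _ _ a).1 ha).2
      have g2 := ((cond_pos_iff hp0 _ _ b).1 hb).2
      have h1 : fl r (d.th (d.G a) (d.T a)) = fl r (d.th (d.G b) (d.T b)) := (Prod.ext_iff.1 h).1
      rw [g1, g2] at h1
      exact h1
  rw [e1, Ex_sub, Ex_const hp.sum_one, ← Pool.OCG.CH_pair_eq_Ex hp0]
  rfl

/-- The dependence of the height on the shape, in the mean over the contexts. -/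
theorem Ex_h2 {A : ℕ} (hd : d.OK A) :
    Ex d.P (fun ω => MI (cond d.P d.G (d.G ω)) d.N (fun ω' => d.v (d.G ω) (d.L ω')) d.T) =
      MI d.P d.N d.s (fun ω => (d.T ω, d.G ω)) := by
  have hp0 := hd.law.nonneg
  rw [← Ex_MI hp0 d.G d.N d.s d.T]
  unfold Ex
  refine Finset.sum_congr rfl fun ω _ => ?_
  congr 1
  have key : ∀ a, 0 < cond d.P d.G (d.G ω) a → d.v (d.G ω) (d.L a) = d.s a := by
    intro a ha
    have g1 := ((cond_pos_iff hp0 _ _ a).1 ha).2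
    show _ = d.v (d.G a) (d.L a)
    rw [g1]
  refine MI_congr (fun v => cond_nonneg hp0 _ _ v) (fun _ _ _ _ h => (Prod.ext_iff.1 h).1)
    (fun _ _ _ _ h => (Prod.ext_iff.1 h).1) ?_ ?_ (fun _ _ _ _ h => h) (fun _ _ _ _ h => h)
  · intro a b ha hb h
    have h1 : d.v (d.G ω) (d.L a) = d.v (d.G ω) (d.L b) := (Prod.ext_iff.1 h).1
    rw [← key a ha, ← key b hb]
    exact h1
  · intro a b ha hb h
    have h1 : d.s a = d.s b := (Prod.ext_iff.1 h).1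
    show d.v (d.G ω) (d.L a) = d.v (d.G ω) (d.L b)
    rw [key a ha, key b hb]
    exact h1

theorem df_nonneg {A : ℕ} (hd : d.OK A) (r : ℕ) : 0 ≤ d.df r := by
  rw [← Ex_df hd r]
  exact Ex_nonneg hd.law.nonneg fun ω hω => df_term_nonneg hd r _ (isLaw_cond' hd.law _ hω)

/-- One box, all constants explicit. -/
theorem core {A k' J : ℕ} {c c₁ π₀ π₁ κ ι ε' ε₁ X₁ : ℝ}
    (hNK : ∀ d : KDat n K, d.OK A → X₁ ≤ d.X → d.H1 ι k' ε' → d.toR.H2 ι →
      d.toR.H5 c₁ κ π₁ ∅ → H d.P (fun ω => d.v (d.L ω)) ≤ ε₁ * d.X * Real.log 2)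
    (hX₁ : X₁ ≤ d.X) (hι : 0 < ι) (hε' : 0 < ε') (hε₁ : 0 ≤ ε₁) (hd : d.OK A)
    (hX0 : 1 ≤ d.X) (hh : 0 < ⌊κ * d.X⌋₊) (hc : c₁ < c) (hNF : d.NF c κ π₀) (hπ₀ : 0 < π₀)
    (hπ₁ : 0 < π₁) (hJ : ∀ j : ℕ, (j + 1) * ⌊κ * d.X⌋₊ ≤ d.X → j < J) :
    CH d.P d.s d.G ≤ ε₁ * d.X * Real.log 2 +
      Fintype.card (Pool.M5.Mon n K) * ((d.X + 2) * Real.log 2) *
        (MI d.P d.T d.L d.G / (ι * d.X) + d.df d.X / (ι * d.X * Real.log 2) + d.df k' / ε' +
          MI d.P d.N d.s (fun ω => (d.T ω, d.G ω)) / (ι * d.X) + J * (π₀ / π₁)) := by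
  classical
  have hp := hd.law
  have hp0 := hp.nonneg
  have hl2 : 0 < Real.log 2 := Real.log_pos (by norm_num)
  have hX0' : (0 : ℝ) < d.X := by exact_mod_cast (show 0 < d.X by omega)
  obtain ⟨M, hM⟩ : ∃ M : ℝ, M = (Fintype.card (Pool.M5.Mon n K) : ℝ) := ⟨_, rfl⟩
  have hM0 : 0 ≤ M := by rw [hM]; exact Nat.cast_nonneg _
  obtain ⟨f1, hf1⟩ : ∃ f1 : d.Om → ℝ, f1 = fun ω => MI (cond d.P d.G (d.G ω)) d.T d.L
    (fun _ => ()) := ⟨_, rfl⟩
  obtain ⟨f2, hf2⟩ : ∃ f2 : d.Om → ℝ, f2 = fun ω => n * (d.X * Real.log 2) -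
    CH (cond d.P d.G (d.G ω)) (fun ω' => fl d.X (d.th (d.G ω) (d.T ω'))) d.L := ⟨_, rfl⟩
  obtain ⟨f3, hf3⟩ : ∃ f3 : d.Om → ℝ, f3 = fun ω => n * (k' * Real.log 2) -
    CH (cond d.P d.G (d.G ω)) (fun ω' => fl k' (d.th (d.G ω) (d.T ω'))) d.L := ⟨_, rfl⟩
  obtain ⟨f4, hf4⟩ : ∃ f4 : d.Om → ℝ, f4 = fun ω => MI (cond d.P d.G (d.G ω)) d.N
    (fun ω' => d.v (d.G ω) (d.L ω')) d.T := ⟨_, rfl⟩
  -- Markov
  have mk : ∀ (f : d.Om → ℝ) (t e : ℝ), (∀ ω, 0 < d.P ω → 0 ≤ f ω) → 0 < t → Ex d.P f ≤ e →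
      Pr d.P {ω | t < f ω} ≤ e / t := by
    intro f t e hf ht he
    have h1 := Pool.OC.FN.markov hp0 (fun ω => max (f ω) 0) (fun ω => le_max_right _ _) ht
    have h2 : Ex d.P (fun ω => max (f ω) 0) = Ex d.P f := by
      unfold Ex
      refine Finset.sum_congr rfl fun ω _ => ?_
      rcases (hp0 ω).eq_or_lt with h0 | h0
      · rw [← h0, zero_mul, zero_mul]
      · show d.P ω * max (f ω) 0 = _
        rw [max_eq_left (hf ω h0)]
    rw [h2] at h1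
    refine (Pr_mono hp0 fun ω _ hω => ?_).trans (h1.trans (by gcongr))
    have hω' : t < f ω := hω
    exact lt_of_lt_of_le hω' (le_max_left _ _)
  have hql : ∀ ω, 0 < d.P ω → IsLaw (cond d.P d.G (d.G ω)) := fun ω hω => isLaw_cond' hp d.G hω
  have m1 : Pr d.P {ω | ι * d.X < f1 ω} ≤ MI d.P d.T d.L d.G / (ι * d.X) := by
    refine mk f1 _ _ (fun ω hω => ?_) (by positivity) ?_
    · rw [hf1]
      exact Pool.M5.MI_nonneg (hql ω hω).nonneg _ _ _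
    · rw [hf1, Ex_MI hp0 d.G d.T d.L (fun _ => ())]
      refine le_of_eq ?_
      exact MI_congr hp0 (fun _ _ _ _ h => (Prod.ext_iff.1 h).1)
        (fun _ _ _ _ h => (Prod.ext_iff.1 h).1) (fun _ _ _ _ h => (Prod.ext_iff.1 h).1)
        (fun _ _ _ _ h => (Prod.ext_iff.1 h).1) (fun _ _ _ _ h => (Prod.ext_iff.1 h).2)
        (fun _ _ _ _ h => Prod.ext rfl h)
  have m2 : Pr d.P {ω | ι * d.X * Real.log 2 < f2 ω} ≤ d.df d.X / (ι * d.X * Real.log 2) := by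
    refine mk f2 _ _ (fun ω hω => ?_) (by positivity) ?_
    · rw [hf2]
      exact df_term_nonneg hd d.X _ (hql ω hω)
    · rw [hf2]
      exact (Ex_df hd d.X).le
  have m3 : Pr d.P {ω | ε' < f3 ω} ≤ d.df k' / ε' := by
    refine mk f3 _ _ (fun ω hω => ?_) hε' ?_
    · rw [hf3]
      exact df_term_nonneg hd k' _ (hql ω hω)
    · rw [hf3]
      exact (Ex_df hd k').le
  have m4 : Pr d.P {ω | ι * d.X < f4 ω} ≤
      MI d.P d.N d.s (fun ω => (d.T ω, d.G ω)) / (ι * d.X) := by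
    refine mk f4 _ _ (fun ω hω => ?_) (by positivity) ?_
    · rw [hf4]
      exact Pool.M5.MI_nonneg (hql ω hω).nonneg _ _ _
    · rw [hf4]
      exact (Ex_h2 hd).le
  have m5 : Pr d.P {ω | ∃ j < J, ω ∈ {ω | (j + 1) * ⌊κ * d.X⌋₊ ≤ d.X ∧
      d.Bad ⌊κ * d.X⌋₊ j c₁ π₁ (d.G ω)}} ≤ J * (π₀ / π₁) := by
    refine (Pr_exists hp0 J _).trans ?_
    refine (Finset.sum_le_sum fun j _ => (?_ : _ ≤ π₀ / π₁)).trans (le_of_eq ?_)
    · by_cases hj : (j + 1) * ⌊κ * d.X⌋₊ ≤ d.X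
      · have h1 := bad_le (c₁ := c₁) (π₁ := π₁) hd (hNF j hj) hh hc hπ₀
        rw [le_div_iff₀ hπ₁, mul_comm]
        refine le_trans (mul_le_mul_of_nonneg_left (Pr_mono hp0 fun ω _ h => h.2) hπ₁.le) h1
      · have : {ω | (j + 1) * ⌊κ * d.X⌋₊ ≤ d.X ∧ d.Bad ⌊κ * d.X⌋₊ j c₁ π₁ (d.G ω)} = ∅ := by
          ext ω
          simp [hj]
        rw [this]
        have h0 : Pr d.P (∅ : Set d.Om) = 0 := by
          rw [Pool.KAF.Pr_eq]
          simp
        rw [h0]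
        positivity
    · rw [Finset.sum_const, card_range, nsmul_eq_mul]
  -- the bad set
  obtain ⟨B, hB⟩ : ∃ B : Set d.Om, B = {ω | ι * d.X < f1 ω} ∪
    ({ω | ι * d.X * Real.log 2 < f2 ω} ∪ ({ω | ε' < f3 ω} ∪ ({ω | ι * d.X < f4 ω} ∪
      {ω | ∃ j < J, ω ∈ {ω | (j + 1) * ⌊κ * d.X⌋₊ ≤ d.X ∧
      d.Bad ⌊κ * d.X⌋₊ j c₁ π₁ (d.G ω)}}))) := ⟨_, rfl⟩
  have mB : Pr d.P B ≤ MI d.P d.T d.L d.G / (ι * d.X) + d.df d.X / (ι * d.X * Real.log 2) +
      d.df k' / ε' + MI d.P d.N d.s (fun ω => (d.T ω, d.G ω)) / (ι * d.X) + J * (π₀ / π₁) := by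
    rw [hB]
    refine (Pr_union_le hp0 _ _).trans ?_
    have h1 := Pr_union_le hp0 {ω | ι * d.X * Real.log 2 < f2 ω}
      ({ω | ε' < f3 ω} ∪ ({ω | ι * d.X < f4 ω} ∪ {ω | ∃ j < J, ω ∈ {ω |
      (j + 1) * ⌊κ * d.X⌋₊ ≤ d.X ∧ d.Bad ⌊κ * d.X⌋₊ j c₁ π₁ (d.G ω)}}))
    have h2 := Pr_union_le hp0 {ω | ε' < f3 ω}
      ({ω | ι * d.X < f4 ω} ∪ {ω | ∃ j < J, ω ∈ {ω | (j + 1) * ⌊κ * d.X⌋₊ ≤ d.X ∧
      d.Bad ⌊κ * d.X⌋₊ j c₁ π₁ (d.G ω)}})
    have h3 := Pr_union_le hp0 {ω | ι * d.X < f4 ω}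
      {ω | ∃ j < J, ω ∈ {ω | (j + 1) * ⌊κ * d.X⌋₊ ≤ d.X ∧
        d.Bad ⌊κ * d.X⌋₊ j c₁ π₁ (d.G ω)}}
    linarith
  -- one context
  have key : ∀ ω, 0 < d.P ω → H (cond d.P d.G (d.G ω)) d.s ≤
      ε₁ * d.X * Real.log 2 + (if ω ∈ B then 1 else 0) * (M * ((d.X + 2) * Real.log 2)) := by
    intro ω hω
    have hq := hql ω hω
    by_cases hωB : ω ∈ B
    · rw [if_pos hωB, one_mul]
      have h2 := H_box (m := d.X + 2) hq (fun ω' s => d.s ω' s + 2 ^ d.X) (fun ω' _ i => by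
        have h4 := abs_le.1 (hd.hv (d.G ω') (d.L ω') i)
        have h5 : (0 : ℝ) < 2 ^ d.X := by positivity
        rw [le_div_iff₀ h5, div_le_iff₀ h5] at h4
        have h6 : -(2 ^ d.X : ℤ) ≤ d.s ω' i := by
          have : ((-(2 ^ d.X : ℤ) : ℤ) : ℝ) ≤ (d.s ω' i : ℝ) := by
            push_cast
            show _ ≤ (d.v (d.G ω') (d.L ω') i : ℝ)
            linarith [h4.1]
          exact_mod_cast this
        have h7 : d.s ω' i ≤ (2 ^ d.X : ℤ) := by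
          have : (d.s ω' i : ℝ) ≤ (((2 ^ d.X : ℤ) : ℤ) : ℝ) := by
            push_cast
            show (d.v (d.G ω') (d.L ω') i : ℝ) ≤ _
            linarith [h4.2]
          exact_mod_cast this
        have h8 : (0 : ℤ) < 2 ^ d.X := by positivity
        rw [pow_add]
        constructor <;> omega)
      have h3 : H (cond d.P d.G (d.G ω)) d.s ≤
          H (cond d.P d.G (d.G ω)) (fun ω' s => d.s ω' s + 2 ^ d.X) := by
        refine H_mono hq.nonneg fun u u' _ _ h => ?_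
        funext i
        have h9 : d.s u i + 2 ^ d.X = d.s u' i + 2 ^ d.X := congrFun h i
        linarith
      have h4 : 0 ≤ ε₁ * d.X * Real.log 2 := by positivity
      rw [← hM] at h2
      push_cast at h2
      linarith
    · rw [if_neg hωB, zero_mul, add_zero]
      simp only [hB, Set.mem_union, Set.mem_ofPred_eq, not_or, not_lt, not_exists, not_and] at hωB
      obtain ⟨b1, b2, b3, b4, b5⟩ := hωB
      rw [hf1] at b1
      rw [hf2] at b2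
      rw [hf3] at b3
      rw [hf4] at b4
      have h3 := hNK (d.kd (d.G ω)) (kd_ok hd hω) hX₁ ⟨b1, ?_, ?_⟩ b4 ?_
      · refine le_trans ?_ h3
        refine H_mono hq.nonneg fun u u' hu hu' h => ?_
        have g1 := ((cond_pos_iff hp0 _ _ u).1 hu).2
        have g2 := ((cond_pos_iff hp0 _ _ u').1 hu').2
        have h4 : d.v (d.G ω) (d.L u) = d.v (d.G ω) (d.L u') := h
        show d.v (d.G u) (d.L u) = d.v (d.G u') (d.L u')
        rw [g1, g2]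
        exact h4
      · have h4 : ((n : ℝ) - ι) * d.X * Real.log 2 ≤ CH (cond d.P d.G (d.G ω))
          (fun ω' => fl d.X (d.th (d.G ω) (d.T ω'))) d.L := by
          linarith
        exact h4
      · have h4 : n * (k' * Real.log 2) - ε' ≤ CH (cond d.P d.G (d.G ω))
          (fun ω' => fl k' (d.th (d.G ω) (d.T ω'))) d.L := by
          linarith
        exact h4
      · intro j _ hj E hE
        have hj' : (j + 1) * ⌊κ * d.X⌋₊ ≤ d.X := hj
        by_contra hcon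
        exact b5 j (hJ j hj') hj' ⟨E, hE, not_le.1 hcon⟩
  rw [Pool.OCG.CH_eq_Ex hp0]
  refine (Ex_mono hp0 key).trans ?_
  rw [Ex_add, Ex_const hp.sum_one]
  have h5 : Ex d.P (fun ω => (if ω ∈ B then (1 : ℝ) else 0) * (M * ((d.X + 2) * Real.log 2))) =
      Pr d.P B * (M * ((d.X + 2) * Real.log 2)) := by
    rw [Pool.KAF.Pr_eq, Finset.sum_mul]
    unfold Ex
    refine Finset.sum_congr rfl fun ω _ => ?_
    show d.P ω * ((if ω ∈ B then (1 : ℝ) else 0) * (M * ((d.X + 2) * Real.log 2))) = _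
    by_cases h : ω ∈ B
    · rw [if_pos h, if_pos h]
      ring
    · rw [if_neg h, if_neg h]
      ring
  rw [h5, mul_comm (Pr d.P B), ← hM]
  have h6 : 0 ≤ M * ((d.X + 2) * Real.log 2) := by positivity
  have h7 := mul_le_mul_of_nonneg_left mB h6
  linarith

end XDat

/-- **FRB**: FR over one natural box, in context. -/
def FRBStmt : Prop :=
  ∀ (n K A : ℕ) (c ε : ℝ), 0 < c → 0 < ε → ∃ (κ π₀ C : ℝ) (k' X₀ : ℕ), 0 < κ ∧ κ ≤ 1 ∧ 0 < π₀ ∧
    0 ≤ C ∧ ∀ d : XDat n K, d.OK A → X₀ ≤ d.X → d.NF c κ π₀ →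
      CH d.P d.s d.G ≤ ε * d.X + C * (MI d.P d.T d.L d.G + d.df d.X + d.X * d.df k' +
        MI d.P d.N d.s (fun ω => (d.T ω, d.G ω)))

/-- **FRB** from the prediction lemma. -/
theorem frb_of (hNK : NKStmt) : FRBStmt := by
  intro n K A c ε hc hε
  have hl2 : 0 < Real.log 2 := Real.log_pos (by norm_num)
  have hl21 : Real.log 2 ≤ 1 := by
    have := Real.log_two_lt_d9
    linarith
  obtain ⟨κ, π₁, ι, ε', k', X₁, hκ, hκ1, hπ₁, hι, hε', hN⟩ :=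
    hNK n K A (c / 2) (ε / 4) (by linarith) (by linarith)
  obtain ⟨M, hM⟩ : ∃ M : ℝ, M = (Fintype.card (Pool.M5.Mon n K) : ℝ) := ⟨_, rfl⟩
  have hM0 : 0 ≤ M := by rw [hM]; exact Nat.cast_nonneg _
  obtain ⟨J, hJd⟩ : ∃ J : ℕ, J = ⌈2 / κ⌉₊ := ⟨_, rfl⟩
  have hJ0 : 0 < J := by rw [hJd]; exact Nat.ceil_pos.2 (by positivity)
  have hJ0' : (0 : ℝ) < J := by exact_mod_cast hJ0
  obtain ⟨π₀, hπ₀d⟩ : ∃ π₀ : ℝ, π₀ = π₁ * ε / (12 * (M + 1) * J) := ⟨_, rfl⟩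
  have hπ₀ : 0 < π₀ := by rw [hπ₀d]; positivity
  obtain ⟨C, hCd⟩ : ∃ C : ℝ, C = 3 * M / ι + 3 * M / ε' := ⟨_, rfl⟩
  have hC0 : 0 ≤ C := by rw [hCd]; positivity
  obtain ⟨X₂, hX₂⟩ := exists_nat_gt (max (2 / κ) 1)
  refine ⟨κ, π₀, C, k', max X₁ X₂, hκ, hκ1, hπ₀, hC0, ?_⟩
  intro d hd hX hNF
  have hX1 : X₁ ≤ d.X := le_trans (le_max_left _ _) hX
  have hX2 : X₂ ≤ d.X := le_trans (le_max_right _ _) hX
  have hX2' : (X₂ : ℝ) ≤ d.X := by exact_mod_cast hX2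
  have g := hX₂.trans_le hX2'
  have g1 : 2 / κ < d.X := lt_of_le_of_lt (le_max_left _ _) g
  have g4 : 1 < (d.X : ℝ) := lt_of_le_of_lt (le_max_right _ _) g
  have hX0 : (0 : ℝ) < d.X := by linarith
  have hXn : 1 ≤ d.X := by
    have : (1 : ℝ) < (d.X : ℝ) := g4
    exact_mod_cast this.le
  rw [div_lt_iff₀ hκ] at g1
  have hfl : κ * d.X / 2 ≤ (⌊κ * d.X⌋₊ : ℝ) := by
    have h1 := Nat.sub_one_lt_floor (κ * d.X)
    have h2 : d.X * κ = κ * d.X := mul_comm _ _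
    rw [h2] at g1
    linarith
  have hh : 0 < ⌊κ * (d.X : ℝ)⌋₊ := by
    have : (0 : ℝ) < ⌊κ * (d.X : ℝ)⌋₊ := lt_of_lt_of_le (by positivity) hfl
    exact_mod_cast this
  have hJ : ∀ j : ℕ, (j + 1) * ⌊κ * (d.X : ℝ)⌋₊ ≤ d.X → j < J := by
    intro j hj
    have h1 : ((j : ℝ) + 1) * (⌊κ * (d.X : ℝ)⌋₊ : ℝ) ≤ d.X := by exact_mod_cast hj
    have h2 : ((j : ℝ) + 1) * (κ * d.X / 2) ≤ d.X :=
      le_trans (mul_le_mul_of_nonneg_left hfl (by positivity)) h1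
    have h3 : ((j : ℝ) + 1) ≤ 2 / κ := by
      rw [le_div_iff₀ hκ]
      by_contra hcon
      push Not at hcon
      have h5 := mul_lt_mul_of_pos_right hcon (by linarith : 0 < (d.X : ℝ) / 2)
      have h6 : ((j : ℝ) + 1) * κ * (d.X / 2) = ((j : ℝ) + 1) * (κ * d.X / 2) := by ring
      rw [h6] at h5
      linarith
    have h4 : (j : ℝ) < J := by
      have := Nat.le_ceil (2 / κ)
      rw [← hJd] at this
      linarith
    exact_mod_cast h4
  have main := XDat.core (J := J) (X₁ := X₁) (ε₁ := ε / 4) (c₁ := c / 2) (π₁ := π₁)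
    (fun d' h1 h2 h3 h4 h5 => hN d' h1 (by exact_mod_cast h2) h3 h4 h5)
    (by exact_mod_cast hX1) hι hε' (by linarith) hd hXn hh (by linarith) hNF hπ₀ hπ₁ hJ
  refine main.trans ?_
  rw [← hM]
  obtain ⟨a1, ha1⟩ : ∃ a, a = MI d.P d.T d.L d.G := ⟨_, rfl⟩
  obtain ⟨a2, ha2⟩ : ∃ a, a = d.df d.X := ⟨_, rfl⟩
  obtain ⟨a3, ha3⟩ : ∃ a, a = d.df k' := ⟨_, rfl⟩
  obtain ⟨a4, ha4⟩ : ∃ a, a = MI d.P d.N d.s (fun ω => (d.T ω, d.G ω)) := ⟨_, rfl⟩
  have b1 : 0 ≤ a1 := by rw [ha1]; exact Pool.M5.MI_nonneg hd.law.nonneg _ _ _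
  have b2 : 0 ≤ a2 := by rw [ha2]; exact XDat.df_nonneg hd _
  have b3 : 0 ≤ a3 := by rw [ha3]; exact XDat.df_nonneg hd _
  have b4 : 0 ≤ a4 := by rw [ha4]; exact Pool.M5.MI_nonneg hd.law.nonneg _ _ _
  rw [← ha1, ← ha2, ← ha3, ← ha4]
  obtain ⟨x, hx⟩ : ∃ x : ℝ, x = d.X := ⟨_, rfl⟩
  rw [← hx] at hX0 g4 ⊢
  obtain ⟨l, hl⟩ : ∃ l : ℝ, l = Real.log 2 := ⟨_, rfl⟩
  rw [← hl] at hl2 hl21 ⊢
  have hx3 : x + 2 ≤ 3 * x := by linarith
  have e1 : M * ((x + 2) * l) * (a1 / (ι * x)) ≤ 3 * M / ι * a1 := by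
    calc M * ((x + 2) * l) * (a1 / (ι * x)) ≤ M * ((3 * x) * 1) * (a1 / (ι * x)) := by gcongr
      _ = 3 * M / ι * a1 := by field_simp
  have e2 : M * ((x + 2) * l) * (a2 / (ι * x * l)) ≤ 3 * M / ι * a2 := by
    calc M * ((x + 2) * l) * (a2 / (ι * x * l)) ≤ M * ((3 * x) * l) * (a2 / (ι * x * l)) := by
          gcongr
      _ = 3 * M / ι * a2 := by field_simp
  have e3 : M * ((x + 2) * l) * (a3 / ε') ≤ 3 * M / ε' * (x * a3) := by
    calc M * ((x + 2) * l) * (a3 / ε') ≤ M * ((3 * x) * 1) * (a3 / ε') := by gcongr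
      _ = 3 * M / ε' * (x * a3) := by field_simp
  have e4 : M * ((x + 2) * l) * (a4 / (ι * x)) ≤ 3 * M / ι * a4 := by
    calc M * ((x + 2) * l) * (a4 / (ι * x)) ≤ M * ((3 * x) * 1) * (a4 / (ι * x)) := by gcongr
      _ = 3 * M / ι * a4 := by field_simp
  have e5 : M * ((x + 2) * l) * (J * (π₀ / π₁)) ≤ ε / 4 * x := by
    calc M * ((x + 2) * l) * (J * (π₀ / π₁)) ≤ M * ((3 * x) * 1) * (J * (π₀ / π₁)) := by gcongr
      _ = M / (M + 1) * (ε / 4 * x) := by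
          rw [hπ₀d]
          field_simp
          ring
      _ ≤ 1 * (ε / 4 * x) := by
          refine mul_le_mul_of_nonneg_right ?_ (by positivity)
          rw [div_le_one (by positivity)]
          linarith
      _ = ε / 4 * x := one_mul _
  have e6 : ε / 4 * x * l ≤ ε / 4 * x := mul_le_of_le_one_right (by positivity) hl21
  have e7 : 0 ≤ 3 * M / ε' * a1 := by positivity
  have e8 : 0 ≤ 3 * M / ε' * a2 := by positivity
  have e9 : 0 ≤ 3 * M / ι * (x * a3) := by positivity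
  have e10 : 0 ≤ 3 * M / ε' * a4 := by positivity
  have e11 : 0 ≤ ε * x := by positivity
  rw [hCd]
  have e12 : M * ((x + 2) * l) * (a1 / (ι * x) + a2 / (ι * x * l) + a3 / ε' + a4 / (ι * x) +
      J * (π₀ / π₁)) = M * ((x + 2) * l) * (a1 / (ι * x)) + M * ((x + 2) * l) * (a2 / (ι * x * l)) +
      M * ((x + 2) * l) * (a3 / ε') + M * ((x + 2) * l) * (a4 / (ι * x)) +
      M * ((x + 2) * l) * (J * (π₀ / π₁)) := by ring
  rw [e12]
  have e13 : (3 * M / ι + 3 * M / ε') * (a1 + a2 + x * a3 + a4) =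
      3 * M / ι * a1 + 3 * M / ι * a2 + 3 * M / ι * (x * a3) + 3 * M / ι * a4 +
      (3 * M / ε' * a1 + 3 * M / ε' * a2 + 3 * M / ε' * (x * a3) + 3 * M / ε' * a4) := by ring
  rw [e13]
  linarith

/-- **FRB.** -/
theorem frb_thm : FRBStmt := frb_of nk

end Pool.FRB
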